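import Pool.Agent.helper53.AU.SpecG1

/-!
# Project au, module PA: a simple group with an abelian regular subgroup is primitive
-/

namespace Pool.Agent.helper53.AU

open scoped Classical

/-- the kernel of the action on the classes of an invariant equivalence relation -/
def PA_ker {X Ω : Type} [Group X] [MulAction X Ω] (r : Setoid Ω)
    (hr : ∀ (g : X) (a b : Ω), r a b → r (g • a) (g • b)) : Subgroup X where
  carrier := {x | ∀ γ : Ω, r γ (x • γ)}
  mul_mem' := by
    intro x y hx hy γ
    have h1 := hy γ
    have h2 := hx (y • γ)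
    rw [mul_smul]
    exact r.trans' h1 h2
  one_mem' := by
    intro γ
    rw [one_smul]
  inv_mem' := by
    intro x hx γ
    have h1 := hx (x⁻¹ • γ)
    rw [smul_inv_smul] at h1
    exact r.symm' h1

theorem PA_ker_normal {X Ω : Type} [Group X] [MulAction X Ω] (r : Setoid Ω)
    (hr : ∀ (g : X) (a b : Ω), r a b → r (g • a) (g • b)) : (PA_ker r hr).Normal := by
  refine ⟨fun x hx g γ => ?_⟩
  have h1 := hr g _ _ (hx (g⁻¹ • γ))
  rw [smul_inv_smul, smul_smul, smul_smul] at h1
  exact h1

theorem PA : PA_stmt := by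
  intro X Ω _ _ _ _ _ D hs ht hreg hcomm r hr
  by_cases hb : r = ⊥
  · exact Or.inl hb
  right
  obtain ⟨α, β, hαβ, hne⟩ : ∃ α β : Ω, r α β ∧ α ≠ β := by
    by_contra hcon
    push Not at hcon
    apply hb
    ext a b
    constructor
    · intro h
      exact hcon a b h
    · intro h
      have : a = b := h
      subst this
      exact r.refl' a
  obtain ⟨d, hd, -⟩ := hreg α β
  have hdK : (d : X) ∈ PA_ker r hr := by
    intro γ
    obtain ⟨e, he, -⟩ := hreg α γ
    have h1 := hr (e : X) _ _ hαβ
    rw [he, ← hd, smul_smul, hcomm _ e.2 _ d.2, ← smul_smul, he] at h1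
    exact h1
  have hd1 : (d : X) ≠ 1 := by
    intro h
    rw [h, one_smul] at hd
    exact hne hd
  have hN := PA_ker_normal r hr
  have htop : PA_ker r hr = ⊤ := by
    rcases hs.eq_bot_or_eq_top_of_normal _ hN with h | h
    · rw [h] at hdK
      exact absurd (Subgroup.mem_bot.mp hdK) hd1
    · exact h
  ext a b
  constructor
  · intro _
    trivial
  · intro _
    obtain ⟨g, hg⟩ := ht.exists_smul_eq a b
    have h1 : g ∈ PA_ker r hr := by rw [htop]; exact Subgroup.mem_top g
    have h2 := h1 a
    rw [hg] at h2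
    exact h2

end Pool.Agent.helper53.AU
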