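import Pool.Agent.helper87.AU.SpecQ1

/-!
# Project au, module QV4: a nonzero function has finitely many zeros and poles
-/

namespace Pool.Agent.helper53.AU

open scoped Classical

theorem QV4_zeros (h : QZ1_stmt) (k F : Type) [Field k] [IsAlgClosed k] [Field F] [Algebra k F]
    (hF : IsFF k F) (z : F) (hz : Transcendental k z) :
    {P : Place k F | 0 < P.ord z}.Finite := by
  by_contra hinf
  obtain ⟨S, hS, hcard⟩ := (show {P : Place k F | 0 < P.ord z}.Infinite from hinf).exists_subset_card_eq
    (degx k z + 1)
  have h1 := h k F hF z hz S (fun P hP => hS hP)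
  have h2 : (S.card : ℤ) ≤ ∑ P ∈ S, P.ord z := by
    have : ∑ P ∈ S, (1 : ℤ) ≤ ∑ P ∈ S, P.ord z :=
      Finset.sum_le_sum (fun P hP => by
        have : 0 < P.ord z := hS hP
        omega)
    simpa using this
  rw [hcard] at h2
  push_cast at h2
  omega

theorem QV4 (h : QZ1_stmt) : QV4_stmt := by
  intro k F _ _ _ _ hF f hf
  by_cases ht : Transcendental k f
  · have hinv : Transcendental k f⁻¹ := by
      intro halg
      apply ht
      have := halg.inv
      rwa [inv_inv] at this
    refine ((QV4_zeros h k F hF f ht).union (QV4_zeros h k F hF f⁻¹ hinv)).subset ?_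
    intro P hP
    have hP' : P.ord f ≠ 0 := hP
    rcases lt_or_gt_of_ne hP' with h1 | h1
    · right
      have : P.ord f⁻¹ = - P.ord f := P.ord_inv hf
      show 0 < P.ord f⁻¹
      omega
    · left
      exact h1
  · have halg : IsAlgebraic k f := by
      by_contra hcon
      exact ht hcon
    have hint : IsIntegral k f := halg.isIntegral
    have hirr := minpoly.irreducible hint
    have hdeg := IsAlgClosed.degree_eq_one_of_irreducible k hirr
    obtain ⟨c, hc⟩ := minpoly.mem_range_of_degree_eq_one k f hdeg
    have hc0 : c ≠ 0 := by
      rintro rfl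
      apply hf
      rw [← hc, map_zero]
    have hemp : (Function.support fun P : Place k F => P.ord f) = ∅ := by
      ext P
      simp only [Function.mem_support, Set.mem_empty_iff_false, iff_false, not_not]
      rw [← hc]
      exact P.ord_const c hc0
    rw [hemp]
    exact Set.finite_empty

end Pool.Agent.helper53.AU
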