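import Pool.Agent.helper75.AU.SpecW

/-!
# Project au (MP_97532f_ag), part QW1: existence of the hyperelliptic function field
-/

set_option linter.unusedVariables false

namespace Pool.Agent.helper53.AU

open scoped Classical IntermediateField
open Polynomial (aeval)

noncomputable section

theorem QW1 (h0 : QW0_stmt) : QW1_stmt := by
  intro k _ f hsq hdeg
  set p : Polynomial (RatFunc k) := (Polynomial.X : Polynomial (RatFunc k)) ^ 2 -
    Polynomial.C (algebraMap (Polynomial k) (RatFunc k) f) with hp
  have hirr : Irreducible p := h0 k f hsq hdeg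
  have : Fact (Irreducible p) := ⟨hirr⟩
  have hX : ∀ q : Polynomial k, algebraMap (RatFunc k) (AdjoinRoot p)
      (algebraMap (Polynomial k) (RatFunc k) q) =
      aeval (algebraMap (RatFunc k) (AdjoinRoot p) RatFunc.X) q := by
    intro q
    rw [Polynomial.aeval_algebraMap_apply, RatFunc.aeval_X_left_eq_algebraMap]
  refine ⟨AdjoinRoot p, inferInstance, inferInstance,
    algebraMap (RatFunc k) (AdjoinRoot p) RatFunc.X, AdjoinRoot.root p, ?_, ?_, ?_⟩
  · rw [transcendental_algebraMap_iff (algebraMap (RatFunc k) (AdjoinRoot p)).injective]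
    exact RatFunc.transcendental_X
  · rw [← hX]
    have h1 := AdjoinRoot.eval₂_root p
    rw [hp] at h1
    simp only [Polynomial.eval₂_sub, Polynomial.eval₂_pow, Polynomial.eval₂_X,
      Polynomial.eval₂_C] at h1
    exact sub_eq_zero.mp h1
  · rw [eq_top_iff]
    rintro z -
    have hx : algebraMap (RatFunc k) (AdjoinRoot p) RatFunc.X ∈ IntermediateField.adjoin k
        ({algebraMap (RatFunc k) (AdjoinRoot p) RatFunc.X, AdjoinRoot.root p} :
          Set (AdjoinRoot p)) := IntermediateField.subset_adjoin _ _ (by simp)
    have hy : AdjoinRoot.root p ∈ IntermediateField.adjoin k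
        ({algebraMap (RatFunc k) (AdjoinRoot p) RatFunc.X, AdjoinRoot.root p} :
          Set (AdjoinRoot p)) := IntermediateField.subset_adjoin _ _ (by simp)
    set L := IntermediateField.adjoin k
        ({algebraMap (RatFunc k) (AdjoinRoot p) RatFunc.X, AdjoinRoot.root p} :
          Set (AdjoinRoot p)) with hL
    have hpoly : ∀ q : Polynomial k, algebraMap (RatFunc k) (AdjoinRoot p)
        (algebraMap (Polynomial k) (RatFunc k) q) ∈ L := by
      intro q
      rw [hX]
      rw [Polynomial.aeval_eq_sum_range]
      exact L.sum_mem fun i _ => L.smul_mem (pow_mem hx i)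
    have hr : ∀ r : RatFunc k, algebraMap (RatFunc k) (AdjoinRoot p) r ∈ L := by
      intro r
      rw [← RatFunc.num_div_denom r, map_div₀]
      exact L.div_mem (hpoly _) (hpoly _)
    obtain ⟨q, rfl⟩ := AdjoinRoot.mk_surjective z
    rw [← AdjoinRoot.aeval_eq, Polynomial.aeval_eq_sum_range]
    refine L.sum_mem fun i _ => ?_
    rw [Algebra.smul_def]
    exact L.mul_mem (hr _) (pow_mem hy i)

end

end Pool.Agent.helper53.AU
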