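import Pool.Agent.helper75.AU.SpecR

/-!
# Project au, module SM: some element fixes a point and swaps a fibre
-/

namespace Pool.Agent.helper75.AU

open scoped Classical
open Pool.Agent.helper53.AU MulAction

section

variable {L O Om : Type} [Group L] [MulAction L O] [MulAction L Om]

theorem SM_sw (pi : O → Om) [Finite O] (h : ∀ a : Om, Nat.card {x : O // pi x = a} = 2) :
    ∃ sw : O → O, (∀ x : O, sw x ≠ x ∧ sw (sw x) = x ∧ pi (sw x) = pi x) ∧
      ∀ x y : O, pi x = pi y → y = x ∨ y = sw x := by
  have h1 : ∀ x : O, ∃ y : O, y ≠ x ∧ pi y = pi x ∧ ∀ z : O, pi z = pi x → z = x ∨ z = y := by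
    intro x
    have h2 := h (pi x)
    rw [Nat.card_eq_two_iff] at h2
    obtain ⟨a, b, hab, huniv⟩ := h2
    have hmem : ∀ z : {z : O // pi z = pi x}, z = a ∨ z = b := by
      intro z
      have : z ∈ ({a, b} : Set {z : O // pi z = pi x}) := by rw [huniv]; trivial
      simpa using this
    rcases hmem ⟨x, rfl⟩ with hx | hx
    · refine ⟨b.1, ?_, b.2, ?_⟩
      · intro hb
        apply hab
        rw [← hx]
        exact Subtype.ext hb.symm
      · intro z hz
        rcases hmem ⟨z, hz⟩ with hz' | hz'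
        · left
          have := congrArg Subtype.val (hz'.trans hx.symm)
          exact this
        · right
          exact congrArg Subtype.val hz'
    · refine ⟨a.1, ?_, a.2, ?_⟩
      · intro ha
        apply hab
        rw [← hx]
        exact Subtype.ext ha
      · intro z hz
        rcases hmem ⟨z, hz⟩ with hz' | hz'
        · right
          exact congrArg Subtype.val hz'
        · left
          have := congrArg Subtype.val (hz'.trans hx.symm)
          exact this
  choose sw hsw1 hsw2 hsw3 using h1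
  refine ⟨sw, fun x => ⟨hsw1 x, ?_, hsw2 x⟩, fun x y hxy => hsw3 x y hxy.symm⟩
  rcases hsw3 x (sw (sw x)) ((hsw2 (sw x)).trans (hsw2 x)) with h4 | h4
  · exact h4
  · exact absurd h4 (hsw1 (sw x))

theorem SM_sw_smul (pi : O → Om) (sw : O → O) (heq : ∀ (v : L) (x : O), pi (v • x) = v • pi x)
    (hsw : ∀ x : O, sw x ≠ x ∧ sw (sw x) = x ∧ pi (sw x) = pi x)
    (hf : ∀ x y : O, pi x = pi y → y = x ∨ y = sw x) (v : L) (x : O) :
    v • sw x = sw (v • x) := by
  rcases hf (v • x) (v • sw x) (by rw [heq, heq, (hsw x).2.2]) with h | h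
  · exact absurd (smul_left_cancel v h) (hsw x).1
  · exact h

/-- two functions odd in both variables: the product does not depend on the point of the fibre -/
theorem SM_prod (pi : O → Om) (sw : O → O) (hf : ∀ x y : O, pi x = pi y → y = x ∨ y = sw x)
    {A B : O → ℚ} (hA : ∀ x, A (sw x) = - A x) (hB : ∀ x, B (sw x) = - B x) (z z' : O)
    (h : pi z = pi z') : A z * B z = A z' * B z' := by
  rcases hf z z' h with h | h
  · rw [h]
  · rw [h, hA, hB]; ring

/-- two invariant functions, odd in both variables, are proportional off the fibres -/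
theorem SM_unique (pi : O → Om) (sw : O → O) (heq : ∀ (v : L) (x : O), pi (v • x) = v • pi x)
    (hf : ∀ x y : O, pi x = pi y → y = x ∨ y = sw x) (htt : TwoTrans L Om)
    {A B : O → O → ℚ} (hAi : ∀ (v : L) (x y : O), A (v • x) (v • y) = A x y)
    (hBi : ∀ (v : L) (x y : O), B (v • x) (v • y) = B x y)
    (hA : ∀ x y : O, A (sw x) y = - A x y ∧ A x (sw y) = - A x y)
    (hB : ∀ x y : O, B (sw x) y = - B x y ∧ B x (sw y) = - B x y)
    (x y x0 y0 : O) (h : pi x ≠ pi y) (h0 : pi x0 ≠ pi y0) :
    A x y * B x0 y0 = A x0 y0 * B x y := by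
  obtain ⟨v, hv1, hv2⟩ := htt _ _ _ _ h0 h
  rw [← heq] at hv1 hv2
  rw [← hAi v x0 y0, ← hBi v x0 y0]
  rcases hf _ _ hv1 with e1 | e1 <;> rcases hf _ _ hv2 with e2 | e2 <;> rw [e1, e2]
  · rw [(hA _ _).2, (hB _ _).2]; ring
  · rw [(hA _ _).1, (hB _ _).1]; ring
  · rw [(hA _ _).1, (hB _ _).1, (hA _ _).2, (hB _ _).2]; ring

end

theorem SM (hMK : MK_stmt) (hML : ML_stmt) : SM_stmt := by
  intro L O Om _ _ _ _ _ _ pi heq hfib htr htt hodd h3 hgen
  by_contra hcon
  push Not at hcon
  obtain ⟨sw, hsw, hf⟩ := SM_sw pi hfib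
  have hsurj : Function.Surjective pi := by
    intro a
    have h1 : 0 < Nat.card {x : O // pi x = a} := by rw [hfib a]; norm_num
    have h2 := (Nat.card_pos_iff.mp h1).1
    obtain ⟨x, hx⟩ := h2
    exact ⟨x, hx⟩
  obtain ⟨K, hKi, hKo, hK0, hK1⟩ := hMK L O Om pi sw heq hsw hf hsurj htt hcon
  let KQ : O → O → ℚ := fun x y => (K x y : ℚ)
  have hKQi : ∀ (v : L) (x y : O), KQ (v • x) (v • y) = KQ x y := by
    intro v x y
    simp only [KQ, hKi]
  have hKQo : ∀ x y : O, KQ (sw x) y = - KQ x y ∧ KQ x (sw y) = - KQ x y := by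
    intro x y
    simp only [KQ]
    rw [(hKo x y).1, (hKo x y).2]
    push_cast
    exact ⟨rfl, rfl⟩
  choose s hs using hsurj
  have : Fintype Om := Fintype.ofFinite Om
  have hcard : Nat.card Om = Fintype.card Om := Nat.card_eq_fintype_card
  -- two points of Om
  obtain ⟨a0, b0, hab0⟩ : ∃ a0 b0 : Om, a0 ≠ b0 := by
    have : 1 < Fintype.card Om := by omega
    obtain ⟨a, b, h⟩ := Fintype.one_lt_card_iff.mp this
    exact ⟨a, b, h⟩
  have h0 : pi (s a0) ≠ pi (s b0) := by rw [hs, hs]; exact hab0
  have h0' : pi (s b0) ≠ pi (s a0) := h0.symm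
  have hsq : ∀ x y : O, pi x ≠ pi y → K x y * K x y = 1 := by
    intro x y h
    rcases hK1 x y h with e | e <;> rw [e] <;> norm_num
  -- the square
  let P : O → O → ℤ := fun x y => ∑ c : Om, K x (s c) * K (s c) y
  have hPQ : ∀ x y : O, ((P x y : ℤ) : ℚ) = ∑ c : Om, KQ x (s c) * KQ (s c) y := by
    intro x y
    simp only [P, KQ]
    push_cast
    rfl
  have hPi : ∀ (v : L) (x y : O), ((P (v • x) (v • y) : ℤ) : ℚ) = ((P x y : ℤ) : ℚ) := by
    intro v x y
    rw [hPQ, hPQ, ← Equiv.sum_comp (MulAction.toPerm v : Equiv.Perm Om)]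
    refine Finset.sum_congr rfl (fun c _ => ?_)
    have e1 := SM_prod pi sw hf (A := fun z => KQ (v • x) z) (B := fun z => KQ z (v • y))
      (fun z => (hKQo _ z).2) (fun z => (hKQo z _).1) (s (v • c)) (v • s c)
      (by rw [hs, heq, hs])
    simp only [MulAction.toPerm_apply]
    rw [e1, hKQi, hKQi]
  have hPo : ∀ x y : O, ((P (sw x) y : ℤ) : ℚ) = - ((P x y : ℤ) : ℚ) ∧
      ((P x (sw y) : ℤ) : ℚ) = - ((P x y : ℤ) : ℚ) := by
    intro x y
    rw [hPQ, hPQ, hPQ]
    constructor
    · rw [← Finset.sum_neg_distrib]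
      refine Finset.sum_congr rfl (fun c _ => ?_)
      rw [(hKQo _ _).1]; ring
    · rw [← Finset.sum_neg_distrib]
      refine Finset.sum_congr rfl (fun c _ => ?_)
      rw [(hKQo _ _).2]; ring
  have hPK := SM_unique pi sw heq hf htt (A := fun x y => ((P x y : ℤ) : ℚ)) (B := KQ) hPi hKQi hPo hKQo
  have hTK := SM_unique pi sw heq hf htt (A := fun x y => KQ y x) (B := KQ)
    (fun v x y => hKQi v y x) hKQi (fun x y => ⟨(hKQo y x).2, (hKQo y x).1⟩) hKQo
  set c : ℤ := P (s a0) (s b0) * K (s a0) (s b0) with hc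
  set ep : ℤ := K (s b0) (s a0) * K (s a0) (s b0) with hep
  have hep1 : ep = 1 ∨ ep = -1 := by
    rw [hep]
    rcases hK1 _ _ h0 with e | e <;> rcases hK1 _ _ h0' with e' | e' <;> rw [e, e'] <;> norm_num
  have hPc : ∀ x y : O, pi x ≠ pi y → ((P x y : ℤ) : ℚ) = (c : ℚ) * KQ x y := by
    intro x y h
    have e1 := hPK x y (s a0) (s b0) h h0
    have e2 : KQ (s a0) (s b0) * KQ (s a0) (s b0) = 1 := by
      simp only [KQ]
      exact_mod_cast hsq _ _ h0
    rw [hc]
    push_cast
    calc ((P x y : ℤ) : ℚ) = (((P x y : ℤ) : ℚ) * KQ (s a0) (s b0)) * KQ (s a0) (s b0) := by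
          rw [mul_assoc, e2, mul_one]
      _ = _ := by rw [e1]; simp only [KQ]; ring
  have hTe : ∀ x y : O, KQ y x = (ep : ℚ) * KQ x y := by
    intro x y
    by_cases h : pi x = pi y
    · simp only [KQ]
      rw [hK0 x y h, hK0 y x h.symm]; simp
    have e1 := hTK x y (s a0) (s b0) h h0
    have e2 : KQ (s a0) (s b0) * KQ (s a0) (s b0) = 1 := by
      simp only [KQ]
      exact_mod_cast hsq _ _ h0
    rw [hep]
    push_cast
    calc KQ y x = (KQ y x * KQ (s a0) (s b0)) * KQ (s a0) (s b0) := by
          rw [mul_assoc, e2, mul_one]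
      _ = _ := by rw [e1]; simp only [KQ]; ring
  let M : Matrix Om Om ℚ := fun a b => KQ (s a) (s b)
  have hMdiag : ∀ a : Om, M a a = 0 := by
    intro a
    simp only [M, KQ, hK0 _ _ rfl]
    norm_num
  have hMoff : ∀ a b : Om, a ≠ b → M a b = 1 ∨ M a b = -1 := by
    intro a b h
    have h' : pi (s a) ≠ pi (s b) := by rw [hs, hs]; exact h
    simp only [M, KQ]
    rcases hK1 _ _ h' with e | e <;> rw [e] <;> norm_num
  have hMM : M * M = (c : ℚ) • M + ((ep : ℚ) * ((Fintype.card Om : ℚ) - 1)) •
      (1 : Matrix Om Om ℚ) := by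
    ext a b
    rw [Matrix.mul_apply]
    simp only [Matrix.add_apply, Matrix.smul_apply, smul_eq_mul]
    by_cases hab : a = b
    · subst hab
      rw [hMdiag, Matrix.one_apply_eq, mul_zero, zero_add, mul_one]
      have e1 : ∀ j : Om, M a j * M j a = (ep : ℚ) * (if j = a then 0 else 1) := by
        intro j
        have e2 : M j a = (ep : ℚ) * M a j := hTe (s a) (s j)
        rw [e2]
        by_cases hj : j = a
        · subst hj; rw [hMdiag]; simp
        · rw [if_neg hj]
          rcases hMoff a j (fun h => hj h.symm) with e3 | e3 <;> rw [e3] <;> ring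
      rw [Finset.sum_congr rfl (fun j _ => e1 j), ← Finset.mul_sum]
      congr 1
      have e4 : ∑ j : Om, (if j = a then (0 : ℚ) else 1) = ∑ j : Om, ((1 : ℚ) - if j = a then 1 else 0) := by
        refine Finset.sum_congr rfl (fun j _ => ?_)
        split_ifs <;> norm_num
      rw [e4, Finset.sum_sub_distrib]
      simp
    · rw [Matrix.one_apply_ne hab, mul_zero, add_zero]
      have h' : pi (s a) ≠ pi (s b) := by rw [hs, hs]; exact hab
      have e1 := hPc _ _ h'
      rw [hPQ] at e1
      exact e1
  have hML' := hML Om M c (by rw [← hcard]; omega) (by rw [← hcard]; exact h3) hMdiag hMoff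
  rcases hep1 with hep1 | hep1
  swap
  · apply hML'.1
    · ext a b
      simp only [Matrix.transpose_apply, Matrix.neg_apply]
      have := hTe (s a) (s b)
      rw [hep1] at this
      simp only [M]
      rw [this]; push_cast; ring
    · rw [hMM, hep1]
      push_cast
      module
  obtain ⟨m, v, hv0, hMv, hline⟩ := hML'.2
    (by
      ext a b
      simp only [Matrix.transpose_apply]
      have := hTe (s a) (s b)
      rw [hep1] at this
      simp only [M]
      rw [this]; push_cast; ring)
    (by
      rw [hMM, hep1]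
      push_cast
      rw [one_mul])
  -- the odd function on O
  let f0 : O → ℚ := fun x => if x = s (pi x) then v (pi x) else - v (pi x)
  have hf0s : ∀ a : Om, f0 (s a) = v a := by
    intro a
    simp only [f0]
    rw [hs, if_pos rfl]
  have hpt : ∀ x : O, x = s (pi x) ∨ x = sw (s (pi x)) := by
    intro x
    exact hf (s (pi x)) x (hs _)
  have hf0o : ∀ x : O, f0 (sw x) = - f0 x := by
    intro x
    simp only [f0]
    rw [(hsw x).2.2]
    rcases hpt x with hx | hx
    · rw [if_pos hx]
      have : sw x ≠ s (pi x) := by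
        intro h
        rw [← hx] at h
        exact (hsw x).1 h
      rw [if_neg this]
    · have h1 : sw x = s (pi x) := by
        have := congrArg sw hx
        rw [(hsw _).2.1] at this
        exact this
      have h2 : x ≠ s (pi x) := by
        intro h
        rw [h1.symm] at h
        exact (hsw x).1 h.symm
      rw [if_pos h1, if_neg h2, neg_neg]
  have hE : ∀ x : O, ∑ c : Om, KQ x (s c) * f0 (s c) = m * f0 x := by
    intro x
    have h1 : ∀ a : Om, ∑ c : Om, KQ (s a) (s c) * f0 (s c) = m * f0 (s a) := by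
      intro a
      have := congrFun hMv a
      simp only [Matrix.mulVec, dotProduct, Pi.smul_apply, smul_eq_mul] at this
      rw [hf0s a, ← this]
      refine Finset.sum_congr rfl (fun c _ => ?_)
      rw [hf0s]
    rcases hpt x with hx | hx
    · rw [hx]; exact h1 _
    · rw [hx, hf0o]
      have h2 := h1 (pi x)
      have h3 : ∑ c : Om, KQ (sw (s (pi x))) (s c) * f0 (s c) =
          - ∑ c : Om, KQ (s (pi x)) (s c) * f0 (s c) := by
        rw [← Finset.sum_neg_distrib]
        refine Finset.sum_congr rfl (fun c _ => ?_)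
        rw [(hKQo _ _).1]; ring
      rw [h3, h2]; ring
  have hswv := SM_sw_smul (L := L) pi sw heq hsw hf
  have hchar : ∀ g : L, ∃ t : ℚ, ∀ x : O, f0 (g • x) = t * f0 x := by
    intro g
    have hgo : ∀ x : O, f0 (g • sw x) = - f0 (g • x) := by
      intro x
      rw [hswv, hf0o]
    have hEg : ∀ x : O, ∑ c : Om, KQ x (s c) * f0 (g • s c) = m * f0 (g • x) := by
      intro x
      rw [← hE (g • x), ← Equiv.sum_comp (MulAction.toPerm g : Equiv.Perm Om)
        (fun c => KQ (g • x) (s c) * f0 (s c))]
      refine Finset.sum_congr rfl (fun c _ => ?_)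
      have e1 := SM_prod pi sw hf (A := fun z => KQ (g • x) z) (B := f0)
        (fun z => (hKQo _ z).2) hf0o (s (g • c)) (g • s c) (by rw [hs, heq, hs])
      simp only [MulAction.toPerm_apply]
      rw [e1, hKQi]
    obtain ⟨t, ht⟩ := hline (fun a => f0 (g • s a)) (by
      ext a
      simp only [Matrix.mulVec, dotProduct, Pi.smul_apply, smul_eq_mul]
      exact hEg (s a))
    refine ⟨t, fun x => ?_⟩
    have hta : ∀ a : Om, f0 (g • s a) = t * f0 (s a) := by
      intro a
      have := congrFun ht a
      simp only [Pi.smul_apply, smul_eq_mul] at this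
      rw [this, hf0s]
    rcases hpt x with hx | hx
    · rw [hx]; exact hta _
    · rw [hx, hgo, hf0o, hta]; ring
  obtain ⟨a1, ha1⟩ : ∃ a1 : Om, v a1 ≠ 0 := by
    by_contra hall
    push Not at hall
    exact hv0 (funext hall)
  have hf01 : f0 (s a1) ≠ 0 := by rw [hf0s]; exact ha1
  let St : Subgroup L :=
    { carrier := {g | ∀ x : O, f0 (g • x) = f0 x}
      mul_mem' := by
        intro a b ha hb x
        rw [mul_smul, ha, hb]
      one_mem' := by
        intro x
        rw [one_smul]
      inv_mem' := by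
        intro a ha x
        have := ha (a⁻¹ • x)
        rw [smul_inv_smul] at this
        exact this.symm }
  have hSt : St = ⊤ := by
    rw [eq_top_iff, ← hgen, Subgroup.closure_le]
    intro g hg
    obtain ⟨n, hn⟩ := hg
    obtain ⟨t, ht⟩ := hchar g
    have hpow : ∀ (k : ℕ) (x : O), f0 (g ^ k • x) = t ^ k * f0 x := by
      intro k
      induction k with
      | zero => intro x; simp
      | succ k ih =>
        intro x
        rw [pow_succ, mul_smul, ih, ht]; ring
    have h1 := hpow (3 ^ n) (s a1)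
    rw [hn, one_smul] at h1
    have h2 : t ^ (3 ^ n) = 1 := by
      have : (t ^ (3 ^ n) - 1) * f0 (s a1) = 0 := by linarith
      rcases mul_eq_zero.mp this with h | h
      · linarith
      · exact absurd h hf01
    have hoddp : Odd (3 ^ n) := Odd.pow (by decide)
    have h3' : t = 1 := by
      have := (hoddp.strictMono_pow (R := ℚ)).injective
      apply this
      simp only [one_pow]
      exact h2
    intro x
    rw [ht, h3', one_mul]
  have hinv : ∀ (g : L) (x : O), f0 (g • x) = f0 x := by
    intro g x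
    have : g ∈ St := by rw [hSt]; exact Subgroup.mem_top g
    exact this x
  obtain ⟨g, hg⟩ := htr (s a1) (sw (s a1))
  have h5 := hinv g (s a1)
  rw [hg, hf0o] at h5
  apply hf01
  linarith

end Pool.Agent.helper75.AU
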