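import Pool.Agent.helper75.AU.SpecR

/-!
# Project au, module W2
-/

namespace Pool.Agent.helper75.AU

open scoped Classical
open Pool.Agent.helper53.AU MulAction

section

variable {k G X : Type} [Field k] [CharP k 3] [Group G] [Fintype G] [MulAction G X] [Fintype X] {g : ℕ}

/-- the sum over all points is at least the sum over one orbit -/
theorem W2_orbit (hBA3 : BA3_stmt) (R : Ram k G X g) (M : Subgroup G) (hM : M.Normal) (x : X) :
    oo G x * R.d M x ≤ ∑ z : X, R.d M z := by
  have hinv : ∀ a : G, R.d M (a • x) = R.d M x := by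
    intro a
    obtain ⟨-, -, -, -, -, -, -, h8, -⟩ := hBA3 k G X g R x M
    refine (h8 a (fun s => ?_)).1
    constructor
    · intro h
      have := hM.conj_mem _ h a⁻¹
      simpa [mul_assoc] using this
    · intro h
      exact hM.conj_mem _ h a
  have h1 : ∑ z ∈ Finset.univ.filter (fun z : X => z ∈ orbit G x), R.d M z =
      ∑ z ∈ Finset.univ.filter (fun z : X => z ∈ orbit G x), R.d M x := by
    refine Finset.sum_congr rfl (fun z hz => ?_)
    obtain ⟨a, rfl⟩ := (Finset.mem_filter.mp hz).2
    exact hinv a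
  have h2 : (Finset.univ.filter (fun z : X => z ∈ orbit G x)).card = oo G x := by
    unfold oo
    rw [Nat.card_eq_fintype_card]
    exact (Fintype.card_of_subtype _ (by simp)).symm
  rw [Finset.sum_const, h2, smul_eq_mul] at h1
  rw [← h1]
  exact Finset.sum_le_sum_of_subset (Finset.filter_subset _ _)

/-- if `G_x` centralises `P_x` (of order 3, with `T_x = 2`) then `h_x = 1` -/
theorem W2_h (hBA1 : BA1_stmt) (hC3 : C3_stmt) (R : Ram k G X g) (x : X) (M : Subgroup G)
    (hcomm : ∀ a b : G, a * b * a⁻¹ * b⁻¹ ∈ M) (hPM : M ⊓ R.P x = ⊥) (hw : R.P x ≠ ⊥)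
    (hq : qq R x = 3) (hT : R.T x = 2) : hh R x = 1 := by
  obtain ⟨-, b2, -, -, b5, -, -, -, -, c, hc⟩ := hBA1 k G X g R x
  obtain ⟨c1, -, -, -⟩ := hC3 k G X g R x c hc
  obtain ⟨s, hs, hs1⟩ : ∃ s ∈ R.P x, s ≠ 1 := by
    by_contra hcon
    push Not at hcon
    exact hw ((Subgroup.eq_bot_iff_forall _).mpr hcon)
  obtain ⟨hcx, -⟩ := hc
  have hcx' : c • x = x := hcx
  have e1 : c * s * c⁻¹ * s⁻¹ = 1 := by
    have h1 : c * s * c⁻¹ * s⁻¹ ∈ M ⊓ R.P x :=
      ⟨hcomm c s, (R.P x).mul_mem (b5 c s hcx' hs) ((R.P x).inv_mem hs)⟩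
    rw [hPM] at h1
    exact Subgroup.mem_bot.mp h1
  have e2 : c ^ 1 * s = s * c ^ 1 := by
    rw [pow_one]
    have := congrArg (fun t => t * s * c) e1
    simpa [mul_assoc] using this
  have h3 := c1 s hs hs1 1 e2
  rw [one_mul] at h3
  have h4 : 1 ≤ R.i x s := ((b2 s).mp hs).2.resolve_left hs1
  have hs3 : s ^ 3 = 1 := by
    have : (⟨s, hs⟩ : R.P x) ^ Nat.card (R.P x) = 1 := pow_card_eq_one'
    have h5 : Nat.card (R.P x) = 3 := hq
    rw [h5] at this
    exact congrArg Subtype.val this
  have hne : s ≠ s⁻¹ := by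
    intro h
    apply hs1
    have h5 : s * s = 1 := by
      nth_rewrite 2 [h]
      exact mul_inv_cancel s
    have h6 : s ^ 3 = s * s * s := by
      rw [pow_succ, pow_two]
    rw [h6, h5, one_mul] at hs3
    exact hs3
  have h7 : R.i x s + R.i x s⁻¹ ≤ R.T x := by
    have h8 : ({s, s⁻¹} : Finset G) ⊆ Finset.univ.filter (fun s : G => s ∈ R.P x ∧ s ≠ 1) := by
      intro t ht
      rw [Finset.mem_insert, Finset.mem_singleton] at ht
      rcases ht with rfl | rfl
      · exact Finset.mem_filter.mpr ⟨Finset.mem_univ _, hs, hs1⟩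
      · exact Finset.mem_filter.mpr ⟨Finset.mem_univ _, (R.P x).inv_mem hs, inv_ne_one.mpr hs1⟩
    have h9 := Finset.sum_le_sum_of_subset (f := fun s => R.i x s) h8
    rw [Finset.sum_pair hne] at h9
    exact h9
  rw [R.inv x s ((b2 s).mp hs).1, hT] at h7
  have h8 : R.i x s = 1 := by omega
  rw [h8] at h3
  exact Nat.dvd_one.mp h3

end

theorem W2 (hBA1 : BA1_stmt) (hBA3 : BA3_stmt) (hC3 : C3_stmt) (hF3c : F3c_stmt) (hLM : LM_stmt)
    (hW1 : W1_stmt) : W2_stmt := by
  intro k G X _ _ _ _ _ _ l R Lam hS hLN hLc hbig htype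
  obtain ⟨hsum, hMn, hidx, -, hcomm⟩ := hLM k G X l R Lam hS hLN hLc
  obtain ⟨-, hwild⟩ := hW1 k G X l R Lam hS hLN hLc
  set M := Subgroup.centralizer (Lam : Set G) with hMdef
  have hl5 : 5 < l := by have := hS.large; omega
  obtain ⟨-, hst, -⟩ := hF3c k G X l R hS.prime hl5
  have hlN : l ∣ Nat.card G := by
    rw [← hLc]; exact Subgroup.card_subgroup_dvd_card Lam
  have horb : ∀ z : X, oo G z * Nat.card (stabilizer G z) = Nat.card G := by
    intro z
    unfold oo
    rw [Nat.card_eq_fintype_card, Nat.card_eq_fintype_card, Nat.card_eq_fintype_card]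
    exact card_orbit_mul_card_stabilizer_eq_card_group G z
  have hlo : ∀ z : X, l ∣ oo G z := by
    intro z
    have := horb z
    rw [← this] at hlN
    exact (hS.prime.dvd_mul.mp hlN).resolve_right (hst z)
  have hopos : ∀ z : X, 0 < oo G z := by
    intro z
    have h1 := horb z
    by_contra h2
    have h3 : oo G z = 0 := by omega
    rw [h3, zero_mul] at h1
    have : 0 < Nat.card G := Nat.card_pos
    omega
  have hNpos : 0 < Nat.card G := Nat.card_pos
  -- a wild point with P_x in M is impossible if the orbit is long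
  have hlong : ∀ x : X, R.P x ≠ ⊥ → 2 * l ≤ oo G x → ¬ R.P x ≤ M := by
    intro x hw ho hle
    obtain ⟨hq, hT, -⟩ := hwild x hw
    obtain ⟨-, -, d1, d2, -⟩ := hBA3 k G X (l + 1) R x M
    have h1 := W2_orbit hBA3 R M hMn x
    rw [d2 hle, hT] at d1
    have h2 : 0 < Nat.card (M ⊓ stabilizer G x : Subgroup G) := Nat.card_pos
    have h3 : 2 ≤ R.d M x := by omega
    have h4 : oo G x * 2 ≤ oo G x * R.d M x := Nat.mul_le_mul_left _ h3
    have := hS.large
    omega
  -- otherwise h = 1
  have hone : ∀ x : X, R.P x ≠ ⊥ → 2 * l ≤ oo G x → hh R x = 1 := by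
    intro x hw ho
    obtain ⟨hq, hT, -⟩ := hwild x hw
    have h1 := hlong x hw ho
    apply W2_h hBA1 hC3 R x M hcomm _ hw hq hT
    have h2 : Nat.card (M ⊓ R.P x : Subgroup G) ∣ Nat.card (R.P x) :=
      Subgroup.card_dvd_of_le inf_le_right
    have h3 : Nat.card (R.P x) = 3 := hq
    rw [h3] at h2
    rcases (Nat.dvd_prime Nat.prime_three).mp h2 with h4 | h4
    · exact Subgroup.card_eq_one.mp h4
    · exfalso
      apply h1
      have h5 : M ⊓ R.P x = R.P x := by
        apply Subgroup.eq_of_le_of_card_ge inf_le_right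
        rw [h3, h4]
      rw [← h5]
      exact inf_le_left
  have hcardst : ∀ z : X, Nat.card (stabilizer G z) = qq R z * hh R z := by
    intro z
    obtain ⟨-, -, -, -, -, -, h, -⟩ := hBA1 k G X (l + 1) R z
    exact h
  rcases htype with ⟨x, y, h⟩ | ⟨x, y, y', h⟩
  · obtain ⟨hq, hT, hh12⟩ := hwild x h.wild
    have hrh := h.rh
    rw [hT] at hrh
    have hNx := horb x
    rw [hcardst, hq] at hNx
    obtain ⟨a', ha'⟩ := hlo x
    obtain ⟨b', hb'⟩ := hlo y
    have hl0 : 0 < l := hS.prime.pos
    by_cases hPy : R.P y = ⊥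
    · have hTy : R.T y = 0 := by
        obtain ⟨-, -, -, d4, -, d6, -⟩ := hBA3 k G X (l + 1) R y ⊤
        rw [← d4 le_top]
        exact d6 (by rw [hPy]; simp)
      rw [hTy] at hrh
      have hlong' : 2 * l ≤ oo G x := by omega
      have h1 := hone x h.wild hlong'
      rw [h1] at hNx
      have hNy := horb y
      set e := Nat.card (stabilizer G y) with he
      have he3 : ¬ 3 ∣ e := by
        obtain ⟨-, -, -, -, -, -, -, h8, -⟩ := hBA1 k G X (l + 1) R y
        rw [he, hcardst]
        have : qq R y = 1 := by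
          unfold qq
          rw [hPy]; exact Subgroup.card_bot
        rw [this, one_mul]
        exact h8
      -- 3 (b' + 2) = e b'
      have h2 : a' = b' + 2 := by
        have : l * a' = l * (b' + 2) := by
          rw [← ha', mul_add, ← hb']; omega
        exact Nat.eq_of_mul_eq_mul_left hl0 this
      have h3 : a' * 3 = b' * e := by
        have : l * (a' * 3) = l * (b' * e) := by
          have h4 : oo G x * (3 * 1) = oo G y * e := by rw [hNx, hNy]
          rw [ha', hb'] at h4
          nlinarith [h4]
        exact Nat.eq_of_mul_eq_mul_left hl0 this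
      rw [h2] at h3
      have hb0 : 0 < b' := by
        have := hopos y
        rw [hb'] at this
        exact Nat.pos_of_mul_pos_left this
      have h4 : b' ∣ 6 := by
        have h5 : b' ∣ b' * e := Dvd.intro _ rfl
        rw [← h3] at h5
        have h6 : (b' + 2) * 3 = b' * 3 + 6 := by ring
        rw [h6] at h5
        exact (Nat.dvd_add_right (Dvd.intro _ rfl)).mp h5
      have h5 : b' ≤ 6 := Nat.le_of_dvd (by norm_num) h4
      have hM1 : Nat.card (M ⊓ stabilizer G y : Subgroup G) * M.relIndex (stabilizer G y) = e := by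
        have h5 := Subgroup.relIndex_mul_relIndex ⊥ (M ⊓ stabilizer G y) (stabilizer G y) bot_le
          inf_le_right
        rw [Subgroup.relIndex_bot_left, Subgroup.relIndex_bot_left, Subgroup.inf_relIndex_right]
          at h5
        exact h5
      have hM2 : M.relIndex (stabilizer G y) ∣ l - 1 :=
        (Subgroup.relIndex_dvd_index_of_normal M (stabilizer G y)).trans hidx
      obtain ⟨-, -, d1, -⟩ := hBA3 k G X (l + 1) R y M
      have h6 := W2_orbit hBA3 R M hMn y
      rw [hb'] at h6
      have h7 : l * b' * R.d M y ≤ 2 * l := h6.trans hsum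
      have h8 : b' * R.d M y ≤ 2 := by
        have : l * (b' * R.d M y) ≤ l * 2 := by
          rw [← mul_assoc]; omega
        exact Nat.le_of_mul_le_mul_left this hl0
      have m8 := hS.mod8
      have m5 := hS.mod5
      generalize hr : M.relIndex (stabilizer G y) = r at hM1 hM2
      generalize hm : Nat.card (M ⊓ stabilizer G y : Subgroup G) = m at hM1 d1
      have hcases : (b' = 6 ∧ e = 4) ∨ (b' = 3 ∧ e = 5) := by
        interval_cases b'
        · exfalso; apply he3; omega
        · exfalso; apply he3; omega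
        · right; omega
        · exfalso; omega
        · exfalso; omega
        · left; omega
      rcases hcases with ⟨hb6, he4⟩ | ⟨hb3, he5⟩
      · rw [he4] at hM1
        have hr4 : r ∣ 4 := Dvd.intro_left _ hM1
        have hr4' : r ≤ 4 := Nat.le_of_dvd (by norm_num) hr4
        rw [hb6] at h8
        have hd0 : R.d M y = 0 := by omega
        rw [hd0] at d1
        have hm1 : m ≤ 1 := by omega
        have : r = 4 := by
          interval_cases m
          · omega
          · omega
        rw [this] at hM2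
        omega
      · rw [he5] at hM1
        have hr5 : r ∣ 5 := Dvd.intro_left _ hM1
        rw [hb3] at h8
        have hd0 : R.d M y = 0 := by omega
        rw [hd0] at d1
        have hm1 : m ≤ 1 := by omega
        have : r = 5 := by
          interval_cases m
          · omega
          · omega
        rw [this] at hM2
        omega
    · obtain ⟨hqy, hTy, hhy⟩ := hwild y hPy
      rw [hTy] at hrh
      have h1 : oo G x + oo G y = 2 * l := by omega
      have h2 : oo G x = l := by
        rw [ha', hb'] at h1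
        have h3 : l * (a' + b') = l * 2 := by rw [mul_add]; omega
        have h4 := Nat.eq_of_mul_eq_mul_left hl0 h3
        have ha0 : 0 < a' := by
          have := hopos x
          rw [ha'] at this
          exact Nat.pos_of_mul_pos_left this
        have hb0 : 0 < b' := by
          have := hopos y
          rw [hb'] at this
          exact Nat.pos_of_mul_pos_left this
        have : a' = 1 := by omega
        rw [ha', this, mul_one]
      rw [h2] at hNx
      rcases hh12 with e1 | e1 <;> rw [e1] at hNx <;> omega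
  · obtain ⟨hq, hT, hh12⟩ := hwild x h.wild
    have hrh := h.rh
    rw [hT] at hrh
    have h1 : oo G x = 2 * l := by omega
    have h2 := hone x h.wild (by omega)
    have hNx := horb x
    rw [hcardst, hq, h1, h2] at hNx
    omega

end Pool.Agent.helper75.AU
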